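import Pool.Agent.T9h85.LZ.E1

set_option autoImplicit false

/-!
# Detection of a zero with a short mollifier
-/

namespace Pool.Agent.T9h73.FF

open Finset Pool.Agent.T9h85.LZ

/-- the coefficients of `(∑_{n ≤ N} n^(-s)) (∑_{d ≤ X} μ(d) d^(-s))` -/
noncomputable def aX (N X m : ℕ) : ℤ :=
  ∑ p ∈ (Icc 1 N ×ˢ Icc 1 X).filter (fun p => p.1 * p.2 = m), ArithmeticFunction.moebius p.2

theorem aX_eq {N X m : ℕ} (hm : 1 ≤ m) (hmX : m ≤ X) (hXN : X ≤ N) :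
    aX N X m = if m = 1 then 1 else 0 := by
  have h1 : (Icc 1 N ×ˢ Icc 1 X).filter (fun p => p.1 * p.2 = m) = m.divisorsAntidiagonal := by
    ext ⟨a, b⟩
    simp only [mem_filter, mem_product, mem_Icc, Nat.mem_divisorsAntidiagonal]
    constructor
    · rintro ⟨-, h⟩
      exact ⟨h, by omega⟩
    · rintro ⟨h, -⟩
      have ha : 1 ≤ a := Nat.pos_of_ne_zero (by rintro rfl; omega)
      have hb : 1 ≤ b := Nat.pos_of_ne_zero (by rintro rfl; omega)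
      refine ⟨⟨⟨ha, ?_⟩, hb, ?_⟩, h⟩
      · nlinarith
      · nlinarith
  unfold aX
  rw [h1]
  have h2 := congrArg (fun F : ArithmeticFunction ℤ => F m) ArithmeticFunction.coe_zeta_mul_moebius
  simp only [ArithmeticFunction.mul_apply, ArithmeticFunction.one_apply] at h2
  rw [← h2]
  refine sum_congr rfl fun p hp => ?_
  have hp1 : p.1 ≠ 0 := by
    rw [Nat.mem_divisorsAntidiagonal] at hp
    rintro h
    apply hp.2
    rw [← hp.1, h, zero_mul]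
  simp [ArithmeticFunction.zeta_apply, hp1]

theorem aX_le {N X m : ℕ} (hm : 1 ≤ m) : |aX N X m| ≤ (m.divisors.card : ℤ) := by
  unfold aX
  refine (abs_sum_le_sum_abs _ _).trans ?_
  calc ∑ p ∈ (Icc 1 N ×ˢ Icc 1 X).filter (fun p => p.1 * p.2 = m), |ArithmeticFunction.moebius p.2|
      ≤ ∑ p ∈ (Icc 1 N ×ˢ Icc 1 X).filter (fun p => p.1 * p.2 = m), (1 : ℤ) :=
        sum_le_sum fun p _ => ArithmeticFunction.abs_moebius_le_one
    _ = (((Icc 1 N ×ˢ Icc 1 X).filter (fun p => p.1 * p.2 = m)).card : ℤ) := by simp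
    _ ≤ (m.divisors.card : ℤ) := by
        norm_cast
        apply card_le_card_of_injOn (fun p => p.1)
        · rintro ⟨a, b⟩ h
          rw [mem_coe, mem_filter] at h
          rw [mem_coe, Nat.mem_divisors]
          exact ⟨⟨b, h.2.symm⟩, by omega⟩
        · rintro ⟨a, b⟩ h ⟨a', b'⟩ h' hab
          rw [mem_coe, mem_filter] at h h'
          simp only at hab h h'
          subst hab
          have ha : 0 < a := Nat.pos_of_ne_zero (by rintro rfl; omega)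
          have : b = b' := Nat.eq_of_mul_eq_mul_left ha (h.2.trans h'.2.symm)
          rw [this]

theorem prod_eqX {q : ℕ} (χ : DirichletCharacter ℂ q) (ρ : ℂ) (N X : ℕ) :
    (∑ n ∈ Icc 1 N, χ (n : ZMod q) * (n : ℂ) ^ (-ρ)) *
      (∑ d ∈ Icc 1 X, (ArithmeticFunction.moebius d : ℂ) * χ (d : ZMod q) * (d : ℂ) ^ (-ρ)) =
      ∑ m ∈ Icc 1 (N * X), ((aX N X m : ℂ) * (m : ℂ) ^ (-ρ)) * χ (m : ZMod q) := by
  rw [sum_mul_sum, ← sum_product']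
  rw [← sum_fiberwise_of_maps_to (s := Icc 1 N ×ˢ Icc 1 X) (t := Icc 1 (N * X))
    (g := fun p => p.1 * p.2)]
  · refine sum_congr rfl fun m _ => ?_
    unfold aX
    push_cast
    rw [sum_mul, sum_mul]
    refine sum_congr rfl fun p hp => ?_
    rw [mem_filter] at hp
    rw [← hp.2, Nat.cast_mul, Complex.natCast_mul_natCast_cpow]
    push_cast
    rw [map_mul]
    ring
  · rintro ⟨a, b⟩ h
    simp only [mem_product, mem_Icc] at h ⊢
    exact ⟨Nat.mul_pos h.1.1 h.2.1, Nat.mul_le_mul h.1.2 h.2.2⟩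

/-- a zero is detected by the coefficients between `X` and `N X` -/
theorem detect1 {q : ℕ} [NeZero q] {χ : DirichletCharacter ℂ q} (hχ : χ ≠ 1) {ρ : ℂ}
    (hρ : 0 < ρ.re) (hρ1 : ρ.re < 1)
    {B : ℝ} (hB : ∀ n : ℕ, ‖∑ k ∈ Icc 1 n, χ (k : ZMod q)‖ ≤ B)
    (h0 : DirichletCharacter.LFunction χ ρ = 0) {N X : ℕ} (hX : 1 ≤ X) (hXN : X ≤ N)
    (hsmall : (1 + ‖ρ‖ / ρ.re) * B * (N : ℝ) ^ (-ρ.re) * ((X : ℝ) ^ (1 - ρ.re) / (1 - ρ.re)) ≤ 1 / 2) :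
    1 / 2 ≤ ‖∑ m ∈ Ioc X (N * X), ((aX N X m : ℂ) * (m : ℂ) ^ (-ρ)) * χ (m : ZMod q)‖ := by
  have hN : 1 ≤ N := hX.trans hXN
  have h1 := psum hχ hρ hB h0 hN
  have h2 : ‖∑ d ∈ Icc 1 X, (ArithmeticFunction.moebius d : ℂ) * χ (d : ZMod q) * (d : ℂ) ^ (-ρ)‖ ≤
      (X : ℝ) ^ (1 - ρ.re) / (1 - ρ.re) := by
    refine (norm_sum_le _ _).trans (le_trans (sum_le_sum fun d hd => ?_) (sum_rpow hρ hρ1 X))
    rw [mem_Icc] at hd
    have hd0 : 0 < d := hd.1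
    rw [norm_mul, norm_mul, Complex.norm_natCast_cpow_of_pos hd0]
    have e1 : ‖(ArithmeticFunction.moebius d : ℂ)‖ ≤ 1 := by
      rw [Complex.norm_intCast]
      exact_mod_cast ArithmeticFunction.abs_moebius_le_one
    have e2 := DirichletCharacter.norm_le_one χ (d : ZMod q)
    have e3 : (-ρ).re = -ρ.re := by simp
    rw [e3]
    have e4 : ‖(ArithmeticFunction.moebius d : ℂ)‖ * ‖χ (d : ZMod q)‖ ≤ 1 :=
      mul_le_one₀ e1 (norm_nonneg _) e2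
    have e5 : 0 ≤ (d : ℝ) ^ (-ρ.re) := by positivity
    nlinarith
  have h3 := prod_eqX χ ρ N X
  have h4 : Icc 1 (N * X) = insert 1 (Ioc 1 (N * X)) := by
    ext k
    have : 1 ≤ N * X := Nat.mul_pos hN hX
    simp only [mem_Icc, mem_insert, mem_Ioc]
    omega
  have h5 : ∑ m ∈ Icc 1 (N * X), ((aX N X m : ℂ) * (m : ℂ) ^ (-ρ)) * χ (m : ZMod q) =
      1 + ∑ m ∈ Ioc X (N * X), ((aX N X m : ℂ) * (m : ℂ) ^ (-ρ)) * χ (m : ZMod q) := by
    rw [h4, sum_insert (by simp), ← sum_Ioc_consecutive _ hX (Nat.le_mul_of_pos_left X hN)]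
    have e1 : ∑ m ∈ Ioc 1 X, ((aX N X m : ℂ) * (m : ℂ) ^ (-ρ)) * χ (m : ZMod q) = 0 := by
      apply sum_eq_zero
      intro m hm
      rw [mem_Ioc] at hm
      rw [aX_eq (by omega) hm.2 hXN, if_neg (by omega)]
      simp
    rw [e1, zero_add, aX_eq le_rfl hX hXN]
    simp
  rw [h5] at h3
  have h6 : ‖1 + ∑ m ∈ Ioc X (N * X), ((aX N X m : ℂ) * (m : ℂ) ^ (-ρ)) * χ (m : ZMod q)‖ ≤ 1 / 2 := by
    rw [← h3, norm_mul]
    refine le_trans (mul_le_mul h1 h2 (norm_nonneg _) ?_) hsmall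
    exact (norm_nonneg _).trans h1
  have h7 := norm_sub_norm_le (1 : ℂ)
    (-∑ m ∈ Ioc X (N * X), ((aX N X m : ℂ) * (m : ℂ) ^ (-ρ)) * χ (m : ZMod q))
  rw [sub_neg_eq_add, norm_neg, norm_one] at h7
  linarith

/-- a zero is detected by a dyadic block -/
theorem detectX {q : ℕ} [NeZero q] {χ : DirichletCharacter ℂ q} (hχ : χ ≠ 1) {ρ : ℂ}
    (hρ : 0 < ρ.re) (hρ1 : ρ.re < 1)
    {B : ℝ} (hB : ∀ n : ℕ, ‖∑ k ∈ Icc 1 n, χ (k : ZMod q)‖ ≤ B)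
    (h0 : DirichletCharacter.LFunction χ ρ = 0) {K L : ℕ} (hLK : L ≤ K)
    (hsmall : (1 + ‖ρ‖ / ρ.re) * B * ((2 ^ K : ℕ) : ℝ) ^ (-ρ.re) *
      (((2 ^ L : ℕ) : ℝ) ^ (1 - ρ.re) / (1 - ρ.re)) ≤ 1 / 2) :
    ∃ i < K, 1 / (2 * (K : ℝ)) ≤ ‖∑ m ∈ Ioc (2 ^ (L + i)) (2 * 2 ^ (L + i)),
      ((aX (2 ^ K) (2 ^ L) m : ℂ) * (m : ℂ) ^ (-ρ)) * χ (m : ZMod q)‖ := by
  have h1 := detect1 hχ hρ hρ1 hB h0 (N := 2 ^ K) (X := 2 ^ L) Nat.one_le_two_pow
    (Nat.pow_le_pow_right (by norm_num) hLK) hsmall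
  rw [← pow_add, add_comm K L, dyadic] at h1
  by_contra hcon
  push Not at hcon
  have h2 := h1.trans (norm_sum_le _ _)
  rcases Nat.eq_zero_or_pos K with h | h
  · subst h
    rw [range_zero, sum_empty] at h2
    norm_num at h2
  have hK0 : (0 : ℝ) < K := by exact_mod_cast h
  have h3 : ∑ j ∈ range K, ‖∑ m ∈ Ioc (2 ^ (L + j)) (2 ^ (L + j + 1)),
      ((aX (2 ^ K) (2 ^ L) m : ℂ) * (m : ℂ) ^ (-ρ)) * χ (m : ZMod q)‖ <
      ∑ j ∈ range K, 1 / (2 * (K : ℝ)) := by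
    apply sum_lt_sum_of_nonempty ⟨0, mem_range.2 h⟩
    intro j hj
    rw [mem_range] at hj
    have h4 := hcon j hj
    rwa [← pow_succ'] at h4
  rw [sum_const, card_range, nsmul_eq_mul] at h3
  have h5 : (K : ℝ) * (1 / (2 * K)) = 1 / 2 := by field_simp
  linarith

end Pool.Agent.T9h73.FF
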