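import Pool.Agent.T9h73.FF.Pow
import Pool.Agent.T9h73.FF.Det

set_option autoImplicit false

/-!
# The moments of the dyadic blocks
-/

namespace Pool.Agent.T9h73.FF

open Finset Pool.Agent.T9h85.LZ

/-- the size of the coefficients -/
theorem coeff_bound {η : ℝ} (hη : 0 < η) {ρ : ℂ} (hρ : 0 < ρ.re) : ∃ Cd : ℝ, 0 < Cd ∧
    ∀ N X M : ℕ, 1 ≤ M → ∀ m ∈ Ioc M (2 * M),
      ‖(aX N X m : ℂ) * (m : ℂ) ^ (-ρ)‖ ≤ Cd * (M : ℝ) ^ (η - ρ.re) := by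
  obtain ⟨Cd, hCd, hd⟩ := Pool.Agent.Helper112.divisor_bound η hη
  refine ⟨Cd * 2 ^ η, by positivity, ?_⟩
  intro N X M hM m hm
  have hM0 : (0 : ℝ) < M := by exact_mod_cast hM
  rw [mem_Ioc] at hm
  have hm1 : 1 ≤ m := by omega
  have hm0 : (0 : ℝ) < m := by exact_mod_cast hm1
  have e1 : ‖(aX N X m : ℂ)‖ ≤ Cd * ((2 : ℝ) ^ η * (M : ℝ) ^ η) := by
    rw [Complex.norm_intCast]
    have h2 : |((aX N X m : ℤ) : ℝ)| ≤ (m.divisors.card : ℝ) := by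
      have := aX_le (N := N) (X := X) hm1
      exact_mod_cast this
    refine h2.trans ((hd m hm1).trans ?_)
    apply mul_le_mul_of_nonneg_left _ hCd.le
    rw [← Real.mul_rpow (by norm_num) hM0.le]
    apply Real.rpow_le_rpow hm0.le _ hη.le
    exact_mod_cast hm.2
  have e2 : ‖(m : ℂ) ^ (-ρ)‖ ≤ (M : ℝ) ^ (-ρ.re) := by
    rw [Complex.norm_natCast_cpow_of_pos (by omega)]
    have e3 : (-ρ).re = -ρ.re := by simp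
    rw [e3]
    apply Real.rpow_le_rpow_of_nonpos hM0 _ (by linarith)
    exact_mod_cast hm.1.le
  rw [norm_mul]
  calc ‖(aX N X m : ℂ)‖ * ‖(m : ℂ) ^ (-ρ)‖ ≤
      (Cd * ((2 : ℝ) ^ η * (M : ℝ) ^ η)) * (M : ℝ) ^ (-ρ.re) :=
        mul_le_mul e1 e2 (norm_nonneg _) (by positivity)
    _ = (Cd * 2 ^ η) * ((M : ℝ) ^ η * (M : ℝ) ^ (-ρ.re)) := by ring
    _ = _ := by rw [← Real.rpow_add hM0]; rfl

open Classical in
theorem moment {η : ℝ} (hη : 0 < η) {ρ : ℂ} (hρ : 0 < ρ.re) (P : ℕ) : ∃ C : ℝ, 0 < C ∧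
    ∀ (k R N X T : ℕ), 1 ≤ k → k ≤ P → 1 ≤ T →
      ∑ f ∈ Icc 1 R, ∑ χ ∈ (univ : Finset (DirichletCharacter ℂ f)).filter (fun χ => χ.IsPrimitive),
        ‖∑ m ∈ Ioc T (2 * T), ((aX N X m : ℂ) * (m : ℂ) ^ (-ρ)) * χ (m : ZMod f)‖ ^ (2 * k) ≤
      C * (((T : ℝ) ^ k + (R : ℝ) ^ 2) * ((T : ℝ) ^ k) ^ (1 + 3 * η - 2 * ρ.re)) := by
  obtain ⟨Cd, hCd, hcoef⟩ := coeff_bound hη hρ
  have h0 : ∀ k : ℕ, ∃ C : ℝ, 0 < C ∧ (1 ≤ k → ∀ (T R : ℕ) (c : ℕ → ℂ) (A : ℝ), 1 ≤ T → 0 ≤ A →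
      (∀ n ∈ Ioc T (2 * T), ‖c n‖ ≤ A) →
      ∑ f ∈ Icc 1 R, ∑ χ ∈ (univ : Finset (DirichletCharacter ℂ f)).filter (fun χ => χ.IsPrimitive),
        ‖∑ n ∈ Ioc T (2 * T), c n * χ (n : ZMod f)‖ ^ (2 * k) ≤
      C * ((T : ℝ) ^ k + (R : ℝ) ^ 2) * ((T : ℝ) ^ k) ^ (1 + η) * A ^ (2 * k)) := by
    intro k
    by_cases hk : 1 ≤ k
    · obtain ⟨C, hC, h⟩ := pow_block k η hk hη
      exact ⟨C, hC, fun _ => h⟩
    · exact ⟨1, one_pos, fun h => absurd h hk⟩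
  choose C hC0 hC using h0
  refine ⟨∑ k ∈ range (P + 1), C k * Cd ^ (2 * k), ?_, ?_⟩
  · exact sum_pos (fun k _ => mul_pos (hC0 k) (by positivity)) ⟨0, by simp⟩
  intro k R N X T hk hkP hT
  have hT0 : (0 : ℝ) < T := by exact_mod_cast hT
  have hY0 : (0 : ℝ) < (T : ℝ) ^ k := by positivity
  have h1 := hC k hk T R (fun m => (aX N X m : ℂ) * (m : ℂ) ^ (-ρ)) (Cd * (T : ℝ) ^ (η - ρ.re)) hT
    (by positivity) (hcoef N X T hT)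
  refine h1.trans ?_
  have h2 : C k * Cd ^ (2 * k) ≤ ∑ k ∈ range (P + 1), C k * Cd ^ (2 * k) :=
    single_le_sum (f := fun k => C k * Cd ^ (2 * k))
      (fun k _ => (mul_pos (hC0 k) (by positivity)).le) (mem_range.2 (by omega))
  have h3 : ((T : ℝ) ^ (η - ρ.re)) ^ (2 * k) = ((T : ℝ) ^ k) ^ (2 * (η - ρ.re)) := by
    rw [← Real.rpow_natCast ((T : ℝ) ^ (η - ρ.re)), ← Real.rpow_mul hT0.le,
      ← Real.rpow_natCast (T : ℝ) k, ← Real.rpow_mul hT0.le]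
    congr 1
    push_cast
    ring
  calc C k * ((T : ℝ) ^ k + (R : ℝ) ^ 2) * ((T : ℝ) ^ k) ^ (1 + η) *
        (Cd * (T : ℝ) ^ (η - ρ.re)) ^ (2 * k) =
      (C k * Cd ^ (2 * k)) * (((T : ℝ) ^ k + (R : ℝ) ^ 2) *
        (((T : ℝ) ^ k) ^ (1 + η) * ((T : ℝ) ^ k) ^ (2 * (η - ρ.re)))) := by
        rw [mul_pow, h3]
        ring
    _ = (C k * Cd ^ (2 * k)) * (((T : ℝ) ^ k + (R : ℝ) ^ 2) *
        ((T : ℝ) ^ k) ^ (1 + 3 * η - 2 * ρ.re)) := by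
        rw [← Real.rpow_add hY0]
        congr 3
        ring
    _ ≤ _ := mul_le_mul_of_nonneg_right h2 (by positivity)

end Pool.Agent.T9h73.FF
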