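import Pool.Agent.T9h54.FF.Spec

/-!
# (ALG)
-/

set_option autoImplicit false

open Finset Filter Topology

namespace Pool.Agent.T9h73.FF

open Pool.Agent.T9h54.FF

theorem vand (s : Finset ℂ) (U : ℂ → ℂ) (h : ∀ k : ℕ, ∑ z ∈ s, U z * z ^ k = 0) :
    ∀ z ∈ s, U z = 0 := by
  classical
  intro z₀ hz₀
  set p : Polynomial ℂ := ∏ z ∈ s.erase z₀, (Polynomial.X - Polynomial.C z) with hp
  have h1 : ∑ z ∈ s, U z * p.eval z = 0 := by
    have h2 : ∀ z ∈ s, U z * p.eval z =
        ∑ i ∈ range (p.natDegree + 1), p.coeff i * (U z * z ^ i) := by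
      intro z _
      rw [Polynomial.eval_eq_sum_range, mul_sum]
      exact sum_congr rfl fun i _ => by ring
    rw [sum_congr rfl h2, sum_comm]
    refine sum_eq_zero fun i _ => ?_
    rw [← mul_sum, h i, mul_zero]
  rw [sum_eq_single z₀] at h1
  · rcases mul_eq_zero.1 h1 with h2 | h2
    · exact h2
    · exfalso
      rw [hp, Polynomial.eval_prod, prod_eq_zero_iff] at h2
      obtain ⟨z, hz, hz2⟩ := h2
      rw [Polynomial.eval_sub, Polynomial.eval_X, Polynomial.eval_C, sub_eq_zero] at hz2
      exact (mem_erase.1 hz).1 hz2.symm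
  · intro z hz hne
    have h2 : p.eval z = 0 := by
      rw [hp, Polynomial.eval_prod]
      refine prod_eq_zero (mem_erase.2 ⟨hne, hz⟩) ?_
      rw [Polynomial.eval_sub, Polynomial.eval_X, Polynomial.eval_C, sub_self]
    rw [h2, mul_zero]
  · intro hn
    exact absurd hz₀ hn

theorem alg : S_ALG := by
  intro ρ h1 h2 s U hz S hS hrel
  set l : Filter ℕ := atTop ⊓ 𝓟 S with hl
  have hneb : l.NeBot := by
    have h3 : ∃ᶠ n in atTop, n ∈ S := Nat.frequently_atTop_iff_infinite.2 hS
    exact frequently_iff_neBot.1 h3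
  have hlt : l ≤ atTop := inf_le_left
  set w : ℕ → ℂ := fun P => (P : ℂ) ^ (-ρ) with hw
  have hwn : ∀ P : ℕ, 0 < P → ‖w P‖ = (P : ℝ) ^ (-ρ.re) := by
    intro P hP
    simp only [hw]
    rw [Complex.norm_natCast_cpow_of_pos hP, Complex.neg_re]
  have hcast : Tendsto (fun P : ℕ => (P : ℝ)) l atTop := tendsto_natCast_atTop_atTop.mono_left hlt
  have hpos : ∀ᶠ P in l, 0 < P := (eventually_gt_atTop 0).filter_mono hlt
  have hS' : ∀ᶠ P in l, P ∈ S := by
    rw [hl]
    exact eventually_inf_principal.2 (Eventually.of_forall fun _ h => h)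
  have hw0 : Tendsto w l (𝓝 0) := by
    rw [tendsto_zero_iff_norm_tendsto_zero]
    have h3 : Tendsto (fun P : ℕ => (P : ℝ) ^ (-ρ.re)) l (𝓝 0) :=
      (tendsto_rpow_neg_atTop (by linarith : 0 < ρ.re)).comp hcast
    refine h3.congr' ?_
    filter_upwards [hpos] with P hP
    exact (hwn P hP).symm
  set c : ℕ → ℂ := fun k => ∑ z ∈ s, U z * z ^ k with hc
  set R : ℕ → ℂ → ℂ := fun k x => ∑ z ∈ s, U z * z ^ k / (1 - z * x) with hR
  have hR0 : ∀ k, Tendsto (fun P => R k (w P)) l (𝓝 (c k)) := by
    intro k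
    have h3 : Tendsto (R k) (𝓝 0) (𝓝 (c k)) := by
      refine tendsto_finsetSum _ fun z _ => ?_
      have h4 : Tendsto (fun x : ℂ => 1 - z * x) (𝓝 0) (𝓝 1) := by
        have h5 : Continuous fun x : ℂ => 1 - z * x := by fun_prop
        have := h5.tendsto 0
        simpa using this
      have h6 : Tendsto (fun x : ℂ => U z * z ^ k / (1 - z * x)) (𝓝 0) (𝓝 (U z * z ^ k / 1)) :=
        (tendsto_const_nhds (x := U z * z ^ k)).div h4 one_ne_zero
      rw [div_one] at h6
      exact h6
    exact h3.comp hw0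
  have hlt1 : ∀ᶠ P in l, ‖w P‖ < 1 := by
    have := hw0.norm
    rw [norm_zero] at this
    exact this.eventually (gt_mem_nhds one_pos)
  have hne : ∀ x : ℂ, ‖x‖ < 1 → ∀ z ∈ s, 1 - z * x ≠ 0 := by
    intro x hx z hz' h0
    have h3 : z * x = 1 := (sub_eq_zero.1 h0).symm
    have h4 := congrArg norm h3
    rw [norm_mul, hz z hz', one_mul, norm_one] at h4
    linarith
  have hstep : ∀ k x, ‖x‖ < 1 → R k x = c k + x * R (k + 1) x := by
    intro k x hx
    simp only [hR, hc]
    rw [mul_sum, ← sum_add_distrib]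
    refine sum_congr rfl fun z hz' => ?_
    have h3 := hne x hx z hz'
    field_simp
    ring
  set κ : ℂ := ∑ z ∈ s, U z * z⁻¹ with hκ
  have hmain : ∀ᶠ P in l, κ + P * w P ^ (0 + 1) * R 0 (w P) = 0 := by
    filter_upwards [hlt1, hS'] with P hP hPS
    have h3 := hrel P hPS
    have h4 : ∑ z ∈ s, U z * hf z P ρ = -(κ + P * w P ^ (0 + 1) * R 0 (w P)) := by
      simp only [hκ, hR]
      rw [mul_sum, ← sum_add_distrib, ← sum_neg_distrib]
      refine sum_congr rfl fun z hz' => ?_
      have h5 := hne (w P) hP z hz'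
      have h6 : z ≠ 0 := by
        intro h0
        have := hz z hz'
        rw [h0, norm_zero] at this
        exact zero_ne_one this
      have h7 : hf z P ρ = -(z⁻¹ + ((P : ℂ) - 1) * w P) / (1 - z * w P) := rfl
      rw [h7]
      field_simp
      ring
    rw [h4, neg_eq_zero] at h3
    exact h3
  have hk : ∀ k, (∀ i < k, c i = 0) → ∀ᶠ P in l, κ + P * w P ^ (k + 1) * R k (w P) = 0 := by
    intro k
    induction k with
    | zero => exact fun _ => hmain
    | succ k ih =>
      intro hi
      have h3 := ih fun i hik => hi i (by omega)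
      filter_upwards [h3, hlt1] with P hP hP1
      rw [hstep k (w P) hP1, hi k (by omega), zero_add] at hP
      rw [← hP]
      ring
  have hwne : ∀ᶠ P in l, w P ≠ 0 := by
    filter_upwards [hpos] with P hP
    have : 0 < ‖w P‖ := by
      rw [hwn P hP]
      exact Real.rpow_pos_of_pos (by exact_mod_cast hP) _
    exact norm_pos_iff.1 this
  -- `c 0 = 0`
  have hc0 : c 0 = 0 := by
    have h3 : Tendsto (fun P : ℕ => ((P : ℂ) * w P)⁻¹) l (𝓝 0) := by
      rw [tendsto_zero_iff_norm_tendsto_zero]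
      have h4 : Tendsto (fun P : ℕ => (P : ℝ) ^ (-(1 - ρ.re))) l (𝓝 0) :=
        (tendsto_rpow_neg_atTop (by linarith : 0 < 1 - ρ.re)).comp hcast
      refine h4.congr' ?_
      filter_upwards [hpos] with P hP
      have hP' : (0 : ℝ) < P := by exact_mod_cast hP
      rw [norm_inv, norm_mul, hwn P hP, Complex.norm_natCast, Real.rpow_neg hP'.le,
        Real.rpow_neg hP'.le, Real.rpow_sub hP', Real.rpow_one]
      congr 1
    have h5 : Tendsto (fun P => R 0 (w P)) l (𝓝 (-κ * 0)) := by
      refine (h3.const_mul (-κ)).congr' ?_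
      filter_upwards [hmain, hpos, hwne] with P hP hP0 hPw
      have hP' : (P : ℂ) ≠ 0 := by exact_mod_cast hP0.ne'
      rw [zero_add, pow_one] at hP
      have h6 : -κ = P * w P * R 0 (w P) := by linear_combination -hP
      rw [h6]
      field_simp
    rw [mul_zero] at h5
    exact tendsto_nhds_unique (hR0 0) h5
  -- `κ = 0`
  have hκ0 : κ = 0 := by
    have h3 : Tendsto (fun P : ℕ => (P : ℂ) * w P ^ (1 + 1)) l (𝓝 0) := by
      rw [tendsto_zero_iff_norm_tendsto_zero]
      have h4 : Tendsto (fun P : ℕ => (P : ℝ) ^ (-(2 * ρ.re - 1))) l (𝓝 0) :=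
        (tendsto_rpow_neg_atTop (by linarith : 0 < 2 * ρ.re - 1)).comp hcast
      refine h4.congr' ?_
      filter_upwards [hpos] with P hP
      have hP' : (0 : ℝ) < P := by exact_mod_cast hP
      rw [norm_mul, norm_pow, hwn P hP, Complex.norm_natCast, ← Real.rpow_natCast,
        ← Real.rpow_mul hP'.le]
      have h5 : (P : ℝ) * (P : ℝ) ^ (-ρ.re * ((1 + 1 : ℕ) : ℝ)) =
          (P : ℝ) ^ (1 + -ρ.re * ((1 + 1 : ℕ) : ℝ)) := by
        rw [Real.rpow_add hP', Real.rpow_one]
      rw [h5]
      congr 1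
      push_cast
      ring
    have h4 := hk 1 (fun i hi => by
      have : i = 0 := by omega
      rw [this]; exact hc0)
    have h5 := h3.mul (hR0 1)
    rw [zero_mul] at h5
    have h6 : Tendsto (fun _ : ℕ => -κ) l (𝓝 0) := by
      refine h5.congr' ?_
      filter_upwards [h4] with P hP
      linear_combination hP
    have h7 := tendsto_nhds_unique (tendsto_const_nhds (x := -κ) (f := l)) h6
    exact neg_eq_zero.1 h7
  have hall : ∀ k, c k = 0 := by
    intro k
    induction k using Nat.strong_induction_on with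
    | _ k ih =>
      have h3 := hk k ih
      have h4 : Tendsto (fun P => R k (w P)) l (𝓝 0) := by
        refine tendsto_const_nhds.congr' ?_
        filter_upwards [h3, hpos, hwne] with P hP hP0 hPw
        have hP' : (P : ℂ) ≠ 0 := by exact_mod_cast hP0.ne'
        rw [hκ0, zero_add] at hP
        rcases mul_eq_zero.1 hP with h | h
        · rcases mul_eq_zero.1 h with h' | h'
          · exact absurd h' hP'
          · exact absurd h' (pow_ne_zero _ hPw)
        · exact h.symm
      exact tendsto_nhds_unique (hR0 k) h4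
  exact vand s U hall

end Pool.Agent.T9h73.FF
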