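import Pool.Agent.Helper112.MultLS
import Pool.Agent.Helper112.Arith

set_option autoImplicit false

/-!
# The mean value of the powers of a dyadic block (large sieve)
-/

namespace Pool.Agent.T9h73.FF

open Finset

/-- the coefficients of the powers -/
theorem conv (η : ℝ) (hη : 0 < η) : ∃ Cd : ℝ, 0 < Cd ∧ ∀ (T : ℕ) (c : ℕ → ℂ) (A : ℝ), 1 ≤ T → 0 ≤ A →
    (∀ n ∈ Ioc T (2 * T), ‖c n‖ ≤ A) → ∀ k : ℕ, ∃ b : ℕ → ℂ,
      (∀ (f : ℕ) (χ : DirichletCharacter ℂ f),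
        (∑ n ∈ Ioc T (2 * T), c n * χ (n : ZMod f)) ^ k =
          ∑ m ∈ Icc 1 ((2 * T) ^ k), b m * χ (m : ZMod f)) ∧
      ∀ m : ℕ, 1 ≤ m → ‖b m‖ ≤ Cd ^ k * ((m : ℝ) ^ η) ^ k * A ^ k := by
  obtain ⟨Cd, hCd, hd⟩ := Pool.Agent.Helper112.divisor_bound η hη
  refine ⟨Cd, hCd, ?_⟩
  intro T c A hT hA hc k
  induction k with
  | zero =>
    refine ⟨fun m => 1, ?_, ?_⟩
    · intro f χ
      simp
    · intro m _
      simp
  | succ k ih =>
    obtain ⟨b, hb1, hb2⟩ := ih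
    refine ⟨fun m' => ∑ p ∈ (Icc 1 ((2 * T) ^ k) ×ˢ Ioc T (2 * T)).filter
      (fun p => p.1 * p.2 = m'), b p.1 * c p.2, ?_, ?_⟩
    · intro f χ
      rw [pow_succ, hb1, sum_mul_sum, ← sum_product']
      rw [← sum_fiberwise_of_maps_to (s := Icc 1 ((2 * T) ^ k) ×ˢ Ioc T (2 * T))
        (t := Icc 1 ((2 * T) ^ (k + 1))) (g := fun p => p.1 * p.2)]
      · refine sum_congr rfl fun m _ => ?_
        rw [sum_mul]
        refine sum_congr rfl fun p hp => ?_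
        rw [mem_filter] at hp
        rw [← hp.2, Nat.cast_mul, map_mul]
        ring
      · rintro ⟨a, b⟩ h
        simp only [mem_product, mem_Icc, mem_Ioc] at h ⊢
        rw [pow_succ]
        exact ⟨Nat.mul_pos h.1.1 (by omega), Nat.mul_le_mul h.1.2 h.2.2⟩
    · intro m hm
      have hm0 : (0 : ℝ) < m := by exact_mod_cast hm
      have h1 : ∀ p ∈ (Icc 1 ((2 * T) ^ k) ×ˢ Ioc T (2 * T)).filter (fun p => p.1 * p.2 = m),
          ‖b p.1 * c p.2‖ ≤ Cd ^ k * ((m : ℝ) ^ η) ^ k * A ^ k * A := by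
        intro p hp
        rw [mem_filter, mem_product, mem_Icc] at hp
        rw [norm_mul]
        refine mul_le_mul ?_ (hc _ hp.1.2) (norm_nonneg _) (by positivity)
        refine (hb2 p.1 hp.1.1.1).trans ?_
        have h2 : p.1 ≤ m := by
          rw [← hp.2]
          have := hp.1.2
          rw [mem_Ioc] at this
          exact Nat.le_mul_of_pos_right _ (by omega)
        have h3 : ((p.1 : ℝ) ^ η) ≤ (m : ℝ) ^ η :=
          Real.rpow_le_rpow (Nat.cast_nonneg _) (by exact_mod_cast h2) hη.le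
        have h4 : ((p.1 : ℝ) ^ η) ^ k ≤ ((m : ℝ) ^ η) ^ k := pow_le_pow_left₀ (by positivity) h3 k
        exact mul_le_mul_of_nonneg_right (mul_le_mul_of_nonneg_left h4 (by positivity)) (by positivity)
      refine (norm_sum_le _ _).trans ((sum_le_sum h1).trans ?_)
      rw [sum_const, nsmul_eq_mul]
      have h5 : (((Icc 1 ((2 * T) ^ k) ×ˢ Ioc T (2 * T)).filter (fun p => p.1 * p.2 = m)).card : ℝ) ≤
          Cd * (m : ℝ) ^ η := by
        refine le_trans ?_ (hd m hm)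
        norm_cast
        apply card_le_card_of_injOn (fun p => p.1)
        · rintro ⟨a, b⟩ h
          rw [mem_coe, mem_filter] at h
          rw [mem_coe, Nat.mem_divisors]
          exact ⟨⟨b, h.2.symm⟩, by omega⟩
        · rintro ⟨a, b⟩ h ⟨a', b'⟩ h' hab
          rw [mem_coe, mem_filter] at h h'
          simp only at hab h h'
          subst hab
          have ha : 0 < a := Nat.pos_of_ne_zero (by rintro rfl; omega)
          have : b = b' := Nat.eq_of_mul_eq_mul_left ha (h.2.trans h'.2.symm)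
          rw [this]
      calc _ ≤ (Cd * (m : ℝ) ^ η) * (Cd ^ k * ((m : ℝ) ^ η) ^ k * A ^ k * A) :=
            mul_le_mul_of_nonneg_right h5 (by positivity)
        _ = Cd ^ (k + 1) * ((m : ℝ) ^ η) ^ (k + 1) * A ^ (k + 1) := by ring

open Classical in
/-- mean value of the `2 k`-th power of a dyadic block -/
theorem pow_block (k : ℕ) (ε : ℝ) (hk : 1 ≤ k) (hε : 0 < ε) : ∃ C : ℝ, 0 < C ∧
    ∀ (T R : ℕ) (c : ℕ → ℂ) (A : ℝ), 1 ≤ T → 0 ≤ A → (∀ n ∈ Ioc T (2 * T), ‖c n‖ ≤ A) →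
      ∑ f ∈ Icc 1 R, ∑ χ ∈ (univ : Finset (DirichletCharacter ℂ f)).filter (fun χ => χ.IsPrimitive),
        ‖∑ n ∈ Ioc T (2 * T), c n * χ (n : ZMod f)‖ ^ (2 * k) ≤
      C * ((T : ℝ) ^ k + (R : ℝ) ^ 2) * ((T : ℝ) ^ k) ^ (1 + ε) * A ^ (2 * k) := by
  have hk0 : (0 : ℝ) < k := by exact_mod_cast hk
  obtain ⟨Cd, hCd, hconv⟩ := conv (ε / (2 * k)) (by positivity)
  refine ⟨6 * 2 ^ k * Cd ^ (2 * k) * ((2 : ℝ) ^ k) ^ (1 + ε), by positivity, ?_⟩
  intro T R c A hT hA hc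
  obtain ⟨b, hb1, hb2⟩ := hconv T c A hT hA hc k
  have hT0 : (0 : ℝ) < T := by exact_mod_cast hT
  have h1 : ∀ f ∈ Icc 1 R, ∑ χ ∈ (univ : Finset (DirichletCharacter ℂ f)).filter
      (fun χ => χ.IsPrimitive), ‖∑ n ∈ Ioc T (2 * T), c n * χ (n : ZMod f)‖ ^ (2 * k) ≤
      ((f : ℝ) / (Nat.totient f : ℝ)) *
      ∑ χ ∈ (univ : Finset (DirichletCharacter ℂ f)).filter (fun χ => χ.IsPrimitive),
        ‖∑ m ∈ Icc 1 ((2 * T) ^ k), b m * χ (m : ZMod f)‖ ^ 2 := by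
    intro f hf
    rw [mem_Icc] at hf
    have h2 : ∑ χ ∈ (univ : Finset (DirichletCharacter ℂ f)).filter
        (fun χ => χ.IsPrimitive), ‖∑ n ∈ Ioc T (2 * T), c n * χ (n : ZMod f)‖ ^ (2 * k) =
        ∑ χ ∈ (univ : Finset (DirichletCharacter ℂ f)).filter (fun χ => χ.IsPrimitive),
        ‖∑ m ∈ Icc 1 ((2 * T) ^ k), b m * χ (m : ZMod f)‖ ^ 2 := by
      refine sum_congr rfl fun χ _ => ?_
      rw [← hb1, norm_pow, ← pow_mul, mul_comm k 2]
    rw [h2]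
    have h3 : (1 : ℝ) ≤ (f : ℝ) / (Nat.totient f : ℝ) := by
      rw [one_le_div (by exact_mod_cast Nat.totient_pos.2 (by omega))]
      exact_mod_cast Nat.totient_le f
    exact le_mul_of_one_le_left (sum_nonneg fun χ _ => by positivity) h3
  refine (sum_le_sum h1).trans ?_
  refine (Pool.Agent.Helper112.mult_large_sieve ((2 * T) ^ k) R b).trans ?_
  have hM1 : (1 : ℝ) ≤ ((2 * (T : ℝ)) ^ k) := by
    apply one_le_pow₀
    have : (1 : ℝ) ≤ T := by exact_mod_cast hT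
    linarith
  have h4 : ∑ m ∈ Icc 1 ((2 * T) ^ k), ‖b m‖ ^ 2 ≤
      ((2 * (T : ℝ)) ^ k) * (Cd ^ (2 * k) * ((2 * (T : ℝ)) ^ k) ^ ε * A ^ (2 * k)) := by
    have h5 : ∀ m ∈ Icc 1 ((2 * T) ^ k), ‖b m‖ ^ 2 ≤
        Cd ^ (2 * k) * ((2 * (T : ℝ)) ^ k) ^ ε * A ^ (2 * k) := by
      intro m hm
      rw [mem_Icc] at hm
      have hm0 : (0 : ℝ) < m := by exact_mod_cast hm.1
      have h6 := pow_le_pow_left₀ (norm_nonneg _) (hb2 m hm.1) 2
      refine h6.trans ?_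
      have h7 : (((m : ℝ) ^ (ε / (2 * k))) ^ k) ^ 2 ≤ ((2 * (T : ℝ)) ^ k) ^ ε := by
        rw [← pow_mul, ← Real.rpow_natCast, ← Real.rpow_mul hm0.le]
        have h8 : ε / (2 * k) * ((k * 2 : ℕ) : ℝ) = ε := by
          push_cast
          field_simp
        rw [h8]
        apply Real.rpow_le_rpow hm0.le _ hε.le
        exact_mod_cast hm.2
      calc (Cd ^ k * ((m : ℝ) ^ (ε / (2 * k))) ^ k * A ^ k) ^ 2 =
          Cd ^ (2 * k) * (((m : ℝ) ^ (ε / (2 * k))) ^ k) ^ 2 * A ^ (2 * k) := by ring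
        _ ≤ _ := mul_le_mul_of_nonneg_right (mul_le_mul_of_nonneg_left h7 (by positivity))
            (by positivity)
    refine (sum_le_sum h5).trans ?_
    rw [sum_const, Nat.card_Icc, nsmul_eq_mul, Nat.add_sub_cancel]
    push_cast
    exact le_rfl
  have h9 : 6 * ((((2 * T) ^ k : ℕ) : ℝ) + (R : ℝ) ^ 2) ≤ 6 * 2 ^ k * ((T : ℝ) ^ k + (R : ℝ) ^ 2) := by
    push_cast
    rw [mul_pow]
    have h10 : (1 : ℝ) ≤ 2 ^ k := one_le_pow₀ (by norm_num)
    have h11 : 0 ≤ (R : ℝ) ^ 2 := by positivity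
    nlinarith
  calc 6 * ((((2 * T) ^ k : ℕ) : ℝ) + (R : ℝ) ^ 2) * ∑ m ∈ Icc 1 ((2 * T) ^ k), ‖b m‖ ^ 2 ≤
      (6 * 2 ^ k * ((T : ℝ) ^ k + (R : ℝ) ^ 2)) *
        (((2 * (T : ℝ)) ^ k) * (Cd ^ (2 * k) * ((2 * (T : ℝ)) ^ k) ^ ε * A ^ (2 * k))) :=
        mul_le_mul h9 h4 (sum_nonneg fun m _ => by positivity) (by positivity)
    _ = 6 * 2 ^ k * ((T : ℝ) ^ k + (R : ℝ) ^ 2) * Cd ^ (2 * k) *
        (((2 * (T : ℝ)) ^ k) ^ (1 + ε)) * A ^ (2 * k) := by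
        rw [Real.rpow_add (by positivity : (0 : ℝ) < (2 * (T : ℝ)) ^ k), Real.rpow_one]
        ring
    _ = _ := by
        rw [mul_pow, Real.mul_rpow (by positivity) (by positivity)]
        ring

end Pool.Agent.T9h73.FF
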