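import Pool.Agent.T9h54.FF.Spec3
import Pool.Agent.T9h73.FF.Pow
import Pool.Agent.T9h73.FF.Det


set_option autoImplicit false

/-!
# (E1H): a better bound for the number of the characters with a zero at a point
-/

namespace Pool.Agent.T9h73.FF

open Finset Pool.Agent.T9h85.LZ Pool.Agent.T9h54.FF

open Classical in
theorem count_leX {R K L : ℕ} {ρ : ℂ} (hρ : 0 < ρ.re) (hρ1 : ρ.re < 1) {B : ℝ}
    (hB : ∀ f : ℕ, 2 ≤ f → f ≤ R → ∀ χ : DirichletCharacter ℂ f, χ ≠ 1 →
      ∀ n : ℕ, ‖∑ k ∈ Icc 1 n, χ (k : ZMod f)‖ ≤ B) (hLK : L ≤ K)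
    (hsmall : (1 + ‖ρ‖ / ρ.re) * B * ((2 ^ K : ℕ) : ℝ) ^ (-ρ.re) *
      (((2 ^ L : ℕ) : ℝ) ^ (1 - ρ.re) / (1 - ρ.re)) ≤ 1 / 2) (kk : ℕ → ℕ) :
    Cnt ρ R ≤ 1 + ∑ j ∈ range K, (2 * (K : ℝ)) ^ (2 * kk j) * ∑ f ∈ Icc 1 R,
      ∑ χ ∈ (univ : Finset (DirichletCharacter ℂ f)).filter (fun χ => χ.IsPrimitive),
        ‖∑ m ∈ Ioc (2 ^ (L + j)) (2 * 2 ^ (L + j)),
          ((aX (2 ^ K) (2 ^ L) m : ℂ) * (m : ℂ) ^ (-ρ)) * χ (m : ZMod f)‖ ^ (2 * kk j) := by
  let T : (f : ℕ) → DirichletCharacter ℂ f → ℕ → ℂ := fun f χ j =>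
    ∑ m ∈ Ioc (2 ^ (L + j)) (2 * 2 ^ (L + j)),
      ((aX (2 ^ K) (2 ^ L) m : ℂ) * (m : ℂ) ^ (-ρ)) * χ (m : ZMod f)
  let W : (f : ℕ) → DirichletCharacter ℂ f → ℝ := fun f χ =>
    ∑ j ∈ range K, (2 * (K : ℝ)) ^ (2 * kk j) * ‖T f χ j‖ ^ (2 * kk j)
  let G : ℕ → ℝ := fun f => ∑ χ ∈ (univ : Finset (DirichletCharacter ℂ f)).filter
    (fun χ => χ.IsPrimitive), W f χ
  have hW0 : ∀ f χ, 0 ≤ W f χ := fun f χ => sum_nonneg fun j _ => by positivity
  have hG0 : ∀ f, 0 ≤ G f := fun f => sum_nonneg fun χ _ => hW0 f χ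
  have h1 : ∀ r ∈ range R, (Set.ncard {χ : DirichletCharacter ℂ (r + 1) |
      χ.IsPrimitive ∧ DirichletCharacter.LFunction χ ρ = 0} : ℝ) ≤
      (if r = 0 then 1 else 0) + G (r + 1) := by
    intro r hr
    rw [mem_range] at hr
    rcases Nat.eq_zero_or_pos r with h | h
    · subst h
      rw [if_pos rfl]
      have h2 : Set.ncard {χ : DirichletCharacter ℂ (0 + 1) |
        χ.IsPrimitive ∧ DirichletCharacter.LFunction χ ρ = 0} ≤ 1 := by
        rw [Set.ncard_le_one (Set.toFinite _)]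
        intro a _ b _
        have e1 : a = 1 := DirichletCharacter.level_one a
        have e2 : b = 1 := DirichletCharacter.level_one b
        rw [e1, e2]
      have h3 : ((Set.ncard {χ : DirichletCharacter ℂ (0 + 1) |
        χ.IsPrimitive ∧ DirichletCharacter.LFunction χ ρ = 0} : ℕ) : ℝ) ≤ 1 := by exact_mod_cast h2
      linarith [hG0 (0 + 1)]
    · rw [if_neg (by omega), zero_add]
      have h2 : {χ : DirichletCharacter ℂ (r + 1) |
        χ.IsPrimitive ∧ DirichletCharacter.LFunction χ ρ = 0} =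
        (((univ : Finset (DirichletCharacter ℂ (r + 1))).filter (fun χ => χ.IsPrimitive)).filter
          (fun χ => DirichletCharacter.LFunction χ ρ = 0) : Set (DirichletCharacter ℂ (r + 1))) := by
        ext χ
        simp
      rw [h2, Set.ncard_coe_finset]
      have h3 : ∀ χ ∈ ((univ : Finset (DirichletCharacter ℂ (r + 1))).filter
          (fun χ => χ.IsPrimitive)).filter (fun χ => DirichletCharacter.LFunction χ ρ = 0),
          (1 : ℝ) ≤ W (r + 1) χ := by
        intro χ hχ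
        rw [mem_filter, mem_filter] at hχ
        have hne : χ ≠ 1 := by
          rintro rfl
          have := hχ.1.2
          rw [DirichletCharacter.isPrimitive_def, DirichletCharacter.conductor_one] at this
          omega
        obtain ⟨i, hi, h4⟩ := detectX hne hρ hρ1 (hB (r + 1) (by omega) (by omega) χ hne) hχ.2
          hLK hsmall
        have hK0 : (0 : ℝ) < K := by exact_mod_cast (by omega : 0 < K)
        have h5 : (1 : ℝ) ≤ 2 * (K : ℝ) * ‖T (r + 1) χ i‖ := by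
          rw [div_le_iff₀ (by positivity)] at h4
          linarith
        have h6 : (1 : ℝ) ≤ (2 * (K : ℝ)) ^ (2 * kk i) * ‖T (r + 1) χ i‖ ^ (2 * kk i) := by
          rw [← mul_pow]
          exact one_le_pow₀ h5
        exact h6.trans (single_le_sum (f := fun j => (2 * (K : ℝ)) ^ (2 * kk j) *
          ‖T (r + 1) χ j‖ ^ (2 * kk j)) (fun j _ => by positivity) (mem_range.2 hi))
      calc ((#(((univ : Finset (DirichletCharacter ℂ (r + 1))).filter
          (fun χ => χ.IsPrimitive)).filter (fun χ => DirichletCharacter.LFunction χ ρ = 0)) : ℕ) : ℝ) =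
          ∑ χ ∈ ((univ : Finset (DirichletCharacter ℂ (r + 1))).filter
          (fun χ => χ.IsPrimitive)).filter (fun χ => DirichletCharacter.LFunction χ ρ = 0),
            (1 : ℝ) := by simp
        _ ≤ ∑ χ ∈ ((univ : Finset (DirichletCharacter ℂ (r + 1))).filter
          (fun χ => χ.IsPrimitive)).filter (fun χ => DirichletCharacter.LFunction χ ρ = 0),
            W (r + 1) χ := sum_le_sum h3
        _ ≤ G (r + 1) := sum_le_sum_of_subset_of_nonneg (filter_subset _ _)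
            fun χ _ _ => hW0 _ χ
  have h2 : ∑ r ∈ range R, ((if r = 0 then (1 : ℝ) else 0) + G (r + 1)) ≤
      1 + ∑ f ∈ Icc 1 R, G f := by
    rw [sum_add_distrib]
    apply add_le_add
    · rw [sum_ite_eq' (range R) 0 (fun _ => (1 : ℝ))]
      split_ifs <;> norm_num
    · apply le_of_eq
      refine sum_nbij (fun r => r + 1) ?_ ?_ ?_ ?_
      · intro r hr
        rw [mem_range] at hr
        rw [mem_Icc]
        omega
      · intro a _ b _ hab
        simpa using hab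
      · intro f hf
        rw [mem_coe, mem_Icc] at hf
        refine ⟨f - 1, ?_, ?_⟩
        · rw [mem_coe, mem_range]; omega
        · simp only; omega
      · intro r _
        rfl
  have h3 : ∑ f ∈ Icc 1 R, G f = ∑ j ∈ range K, (2 * (K : ℝ)) ^ (2 * kk j) * ∑ f ∈ Icc 1 R,
      ∑ χ ∈ (univ : Finset (DirichletCharacter ℂ f)).filter (fun χ => χ.IsPrimitive),
        ‖T f χ j‖ ^ (2 * kk j) := by
    have h5 : ∀ f, G f = ∑ j ∈ range K, (2 * (K : ℝ)) ^ (2 * kk j) *
        ∑ χ ∈ (univ : Finset (DirichletCharacter ℂ f)).filter (fun χ => χ.IsPrimitive),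
        ‖T f χ j‖ ^ (2 * kk j) := by
      intro f
      show ∑ χ ∈ (univ : Finset (DirichletCharacter ℂ f)).filter (fun χ => χ.IsPrimitive),
        ∑ j ∈ range K, (2 * (K : ℝ)) ^ (2 * kk j) * ‖T f χ j‖ ^ (2 * kk j) = _
      rw [sum_comm]
      refine sum_congr rfl fun j _ => ?_
      rw [mul_sum]
    rw [sum_congr rfl (fun f _ => h5 f), sum_comm]
    refine sum_congr rfl fun j _ => ?_
    rw [mul_sum]
  calc Cnt ρ R ≤ ∑ r ∈ range R, ((if r = 0 then (1 : ℝ) else 0) + G (r + 1)) := sum_le_sum h1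
    _ ≤ 1 + ∑ f ∈ Icc 1 R, G f := h2
    _ = _ := by rw [h3]

end Pool.Agent.T9h73.FF
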