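import Pool.Agent.T9h73.FF.Core
import Pool.Agent.T9h89.FF.Par3

set_option autoImplicit false

/-!
# (E1I)
-/

namespace Pool.Agent.T9h73.FF

open Pool.Agent.T9h54.FF

theorem e1i : S_E1I := by
  intro ρ e h12 h1 he
  exact core ρ e h12 h1 (lt_trans (div_pos (by linarith) (by linarith)) he)
    (Pool.Agent.T9h89.FF.par3 ρ.re e h12 h1 he)

end Pool.Agent.T9h73.FF
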